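import Pool.Agent.TH178.MZ.Core

/-! The dichotomy for local Zariski closures. -/

set_option autoImplicit false

namespace Pool.Agent.TH178.MZ

open MvPolynomial

variable {K : Type} [Field K] {ι : Type} {L : Type} [NontriviallyNormedField L]

/-- Near a point `y` of `S` at which the brackets have rank at least `n = dim p`, the set `S` is
Zariski dense in the zero set of `p`. -/
theorem mem_of_good [CharZero K] [Fintype ι] (σ : K →+* L) (hσ : DenseRange σ) {S : Set (ι → K)}
    {p : Ideal (MvPolynomial ι K)} [p.IsPrime] (hp : ∀ f ∈ p, ∀ y ∈ S, eval y f = 0) {n : ℕ}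
    (htr : Algebra.trdeg K (MvPolynomial ι K ⧸ p) ≤ n) {μ : Type}
    (V : μ → Derivation K (MvPolynomial ι K) (MvPolynomial ι K))
    (hV : ∀ i, RationallyIntegrable S (V i)) {U : Set (ι → L)} (hU : IsOpen U)
    {y₀ : ι → K} (hy₀ : y₀ ∈ S) (hy₀U : (fun i => σ (y₀ i)) ∈ U) (hgood : n ≤ bracketRank V y₀)
    (f : MvPolynomial ι K) (hf : ∀ y ∈ S, (fun i => σ (y i)) ∈ U → eval y f = 0) : f ∈ p := by
  classical
  -- choose members of the Lie algebra with independent values
  obtain ⟨w, hw⟩ : ∃ w : Fin n → (Submodule.map (valueAt y₀)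
      (LieSubalgebra.lieSpan K (Derivation K (MvPolynomial ι K) (MvPolynomial ι K))
        (Set.range V)).toSubmodule), LinearIndependent K w :=
    exists_linearIndependent_of_le_finrank hgood
  have hw' : LinearIndependent K fun j => ((w j : ι → K)) :=
    hw.map' (Submodule.subtype _) (Submodule.ker_subtype _)
  have hD : ∀ j, ∃ D ∈ LieSubalgebra.lieSpan K (Derivation K (MvPolynomial ι K)
      (MvPolynomial ι K)) (Set.range V), valueAt y₀ D = (w j : ι → K) := by
    intro j
    obtain ⟨D, hD, hDw⟩ := (w j).2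
    exact ⟨D, hD, hDw⟩
  choose D hD hDw using hD
  obtain ⟨e, he⟩ := exists_minor (fun j => ((w j : ι → K))) hw'
  -- the open set where the minor does not vanish
  let A : Matrix (Fin n) (Fin n) (MvPolynomial ι K) := Matrix.of fun j k => D j (X (e k))
  have hA : ∀ y : ι → K, (Matrix.of fun j k => eval y (D j (X (e k)))).det = eval y A.det := by
    intro y
    rw [RingHom.map_det]
    rfl
  have hA0 : eval y₀ A.det ≠ 0 := by
    rw [← hA]
    have h1 : (Matrix.of fun j k => eval y₀ (D j (X (e k)))) =
        Matrix.of fun j k => ((w j : ι → K)) (e k) := by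
      ext j k
      rw [Matrix.of_apply, Matrix.of_apply, ← hDw j]
      rfl
    rw [h1]
    exact he
  let U' : Set (ι → L) := U ∩ {z | eval₂ σ z A.det ≠ 0}
  have hcont : Continuous fun z : ι → L => eval₂ σ z A.det := by
    have h : (fun z : ι → L => eval₂ σ z A.det) = fun z => eval z (MvPolynomial.map σ A.det) := by
      funext z
      rw [eval_map]
    rw [h]
    exact MvPolynomial.continuous_eval _
  have hU' : IsOpen U' := hU.inter (isOpen_ne_fun hcont continuous_const)
  have hσe : ∀ y : ι → K, eval₂ σ (fun i => σ (y i)) A.det = σ (eval y A.det) := by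
    intro y
    exact (MvPolynomial.eval₂_comp σ y A.det).symm
  let T : Set (ι → K) := {y | y ∈ S ∧ (fun i => σ (y i)) ∈ U'}
  have hT : T.Nonempty := by
    refine ⟨y₀, hy₀, hy₀U, ?_⟩
    show eval₂ σ (fun i => σ (y₀ i)) A.det ≠ 0
    rw [hσe]
    exact fun h => hA0 (σ.injective (by rw [h, map_zero]))
  -- the Lie algebra of the derivations which preserve the functions vanishing on `T`
  let P : LieSubalgebra K (Derivation K (MvPolynomial ι K) (MvPolynomial ι K)) :=
    { carrier := {E | ∀ g : MvPolynomial ι K, (∀ y ∈ T, eval y g = 0) →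
        ∀ y ∈ T, eval y (E g) = 0}
      add_mem' := by
        intro E E' hE hE' g hg y hy
        rw [Derivation.add_apply, map_add, hE g hg y hy, hE' g hg y hy, add_zero]
      zero_mem' := by
        intro g hg y hy
        simp
      smul_mem' := by
        intro c E hE g hg y hy
        rw [Derivation.smul_apply, smul_eval, hE g hg y hy, mul_zero]
      lie_mem' := by
        intro E E' hE hE' g hg y hy
        rw [Derivation.commutator_apply, map_sub, hE _ (hE' g hg) y hy, hE' _ (hE g hg) y hy,
          sub_zero] }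
  have hP : LieSubalgebra.lieSpan K (Derivation K (MvPolynomial ι K)
        (MvPolynomial ι K)) (Set.range V) ≤ P := by
    rw [LieSubalgebra.lieSpan_le]
    rintro _ ⟨i, rfl⟩ g hg y hy
    exact stable σ hσ (hV i) hU' g (fun z hz hzU => hg z ⟨hz, hzU⟩) y hy.1 hy.2
  have hinj := eq_zero_of_det hT D (fun j => hP (hD j)) e (by
    intro y hy
    rw [hA]
    intro h
    apply hy.2.2
    show eval₂ σ (fun i => σ (y i)) A.det = 0
    rw [hσe, h, map_zero])
  exact mem_of_vanish (T := T) (fun g hg y hy => hp g hg y hy.1) htr e hinj f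
    (fun y hy => hf y hy.1 hy.2.1)

/-- **Dichotomy.** The local Zariski closure of `S` at `x` is the zero set of `p`, or it is the
local Zariski closure at `x` of a subset `B` of `S` which contains the points at which the brackets
have rank less than `n = dim p`. -/
theorem dichotomy [CharZero K] [Fintype ι] (σ : K →+* L) (hσ : DenseRange σ) {S : Set (ι → K)}
    {p : Ideal (MvPolynomial ι K)} [p.IsPrime] (hp : ∀ f ∈ p, ∀ y ∈ S, eval y f = 0) {n : ℕ}
    (htr : Algebra.trdeg K (MvPolynomial ι K ⧸ p) ≤ n) {μ : Type}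
    (V : μ → Derivation K (MvPolynomial ι K) (MvPolynomial ι K))
    (hV : ∀ i, RationallyIntegrable S (V i)) {B : Set (ι → K)} (hBS : B ⊆ S)
    (hB : ∀ y ∈ S, bracketRank V y < n → y ∈ B) (x : ι → L) :
    localIdeal σ S x = p ∨ localIdeal σ S x = localIdeal σ B x := by
  classical
  by_cases h : ∃ U ∈ nhds x, ∀ y ∈ S, (fun i => σ (y i)) ∈ U → y ∈ B
  · right
    obtain ⟨U, hU, hUb⟩ := h
    apply Set.Subset.antisymm
    · rintro f ⟨W, hW, hWf⟩
      exact ⟨W, hW, fun y hy => hWf y (hBS hy)⟩
    · rintro f ⟨W, hW, hWf⟩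
      exact ⟨W ∩ U, Filter.inter_mem hW hU,
        fun y hy hyW => hWf y (hUb y hy hyW.2) hyW.1⟩
  · left
    push Not at h
    apply Set.Subset.antisymm
    · rintro f ⟨W, hW, hWf⟩
      obtain ⟨y₀, hy₀, hy₀U, hyB⟩ := h (interior W) (interior_mem_nhds.2 hW)
      exact mem_of_good σ hσ hp htr V hV isOpen_interior hy₀ hy₀U
        (not_lt.1 fun hlt => hyB (hB y₀ hy₀ hlt)) f
        (fun y hy hyU => hWf y hy (interior_subset hyU))
    · intro f hf
      exact ⟨Set.univ, Filter.univ_mem, fun y hy _ => hp f hf y hy⟩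

end Pool.Agent.TH178.MZ
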