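import Pool.Agent.TH178.MZ.Stable

/-! Local Zariski closures of cones and multicones. -/

set_option autoImplicit false

namespace Pool.Agent.TH178.MZ

open MvPolynomial

variable {K : Type} [Field K] {ι κ : Type} [Fintype κ] {L : Type} [NontriviallyNormedField L]

/-- The action of the point `c` of a torus on affine space, the coordinate `l` having the weights
`m l`. -/
def scale {R : Type} [CommMonoid R] (m : ι → κ → ℕ) (c : κ → R) (z : ι → R) : ι → R :=
  fun l => (∏ k, c k ^ m l k) * z l

theorem scale_one {R : Type} [CommMonoid R] (m : ι → κ → ℕ) (z : ι → R) :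
    scale m (fun _ => 1) z = z := by
  funext l
  simp [scale]

theorem scale_scale {R : Type} [CommMonoid R] (m : ι → κ → ℕ) (c d : κ → R) (z : ι → R) :
    scale m c (scale m d z) = scale m (fun k => c k * d k) z := by
  funext l
  simp only [scale, mul_pow, Finset.prod_mul_distrib, mul_assoc]

theorem map_scale (σ : K →+* L) (m : ι → κ → ℕ) (t : κ → K) (y : ι → K) :
    (fun i => σ (scale m t y i)) = scale m (fun k => σ (t k)) (fun i => σ (y i)) := by
  funext i
  simp only [scale, map_mul, map_prod, map_pow]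

theorem continuous_scale (m : ι → κ → ℕ) (z : ι → L) :
    Continuous fun c : κ → L => scale m c z := by
  refine continuous_pi fun i => ?_
  exact (continuous_finsetProd _ fun k _ => (continuous_apply k).pow _).mul continuous_const

/-- A polynomial which vanishes on the part of an orbit of the torus inside an open set vanishes on
the whole orbit. -/
theorem vanish_orbit (σ : K →+* L) (hσ : DenseRange σ) (m : ι → κ → ℕ) {U : Set (ι → L)}
    (hU : IsOpen U) (y : ι → K) (g : MvPolynomial ι K)
    (hg : ∀ t : κ → K, (∀ k, t k ≠ 0) → (fun i => σ (scale m t y i)) ∈ U →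
      eval (scale m t y) g = 0) (c : κ → L) (hc : scale m c (fun i => σ (y i)) ∈ U)
    (t : κ → K) : eval (scale m t y) g = 0 := by
  classical
  let H : MvPolynomial κ K := aeval (fun l => (∏ k, (X k : MvPolynomial κ K) ^ m l k) * C (y l)) g
  have hH : ∀ t : κ → K, eval t H = eval (scale m t y) g := by
    intro t
    have h1 : (aeval t : MvPolynomial κ K →ₐ[K] K).comp
        (aeval (fun l => (∏ k, (X k : MvPolynomial κ K) ^ m l k) * C (y l))) =
        aeval (scale m t y) := by
      apply MvPolynomial.algHom_ext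
      intro l
      rw [AlgHom.comp_apply, aeval_X, aeval_X, map_mul, map_prod, aeval_C]
      simp only [map_pow, aeval_X, scale, Algebra.algebraMap_self, RingHom.id_apply]
    have h2 := DFunLike.congr_fun h1 g
    rw [AlgHom.comp_apply, aeval_eq_eval, aeval_eq_eval] at h2
    exact h2
  have hO : (fun c : κ → L => scale m c (fun i => σ (y i))) ⁻¹' U ∈ nhds c :=
    (hU.preimage (continuous_scale m _)).mem_nhds hc
  rw [nhds_pi, Filter.mem_pi'] at hO
  obtain ⟨I, W, hW, hWO⟩ := hO
  have hW' : ∀ k, {t : K | σ t ∈ W k ∧ t ≠ 0}.Infinite := by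
    intro k
    have h1 := (infinite_preimage σ hσ (c k) (hW k)).sdiff (Set.finite_singleton (0 : K))
    refine h1.mono ?_
    rintro t ⟨ht, ht0⟩
    exact ⟨ht, ht0⟩
  have hH0 : H = 0 := by
    apply MvPolynomial.funext_set _ hW'
    intro t ht
    rw [map_zero, hH]
    apply hg t (fun k => (ht k (Set.mem_univ k)).2)
    rw [map_scale]
    apply hWO
    intro k _
    exact (ht k (Set.mem_univ k)).1
  rw [← hH, hH0, map_zero]

theorem localIdeal_congr (σ : K →+* L) {S S' : Set (ι → K)} {x : ι → L} {U : Set (ι → L)}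
    (hU : U ∈ nhds x) (h : ∀ y, (fun i => σ (y i)) ∈ U → (y ∈ S ↔ y ∈ S')) :
    localIdeal σ S x = localIdeal σ S' x := by
  apply Set.Subset.antisymm
  · rintro f ⟨W, hW, hf⟩
    exact ⟨W ∩ U, Filter.inter_mem hW hU, fun y hy hyW => hf y ((h y hyW.2).2 hy) hyW.1⟩
  · rintro f ⟨W, hW, hf⟩
    exact ⟨W ∩ U, Filter.inter_mem hW hU, fun y hy hyW => hf y ((h y hyW.2).1 hy) hyW.1⟩

/-- The ideal of the local Zariski closure of a multicone, in terms of multihomogeneous
coordinates. -/
theorem coneIdeal_eq (σ : K →+* L) (hσ : DenseRange σ) (m : ι → κ → ℕ) {S : Set (ι → K)}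
    (hS : ∀ y ∈ S, ∀ t : κ → K, (∀ k, t k ≠ 0) → scale m t y ∈ S) (x : ι → L) :
    {g : MvPolynomial ι K | ∃ U ∈ nhds x, ∀ y ∈ S,
      (∃ c : κ → L, (∀ k, c k ≠ 0) ∧ scale m c (fun i => σ (y i)) ∈ U) →
        ∀ t : κ → K, eval (scale m t y) g = 0} = localIdeal σ S x := by
  apply Set.Subset.antisymm
  · rintro g ⟨U, hU, hg⟩
    refine ⟨U, hU, fun y hy hyU => ?_⟩
    have h1 := hg y hy ⟨fun _ => 1, fun _ => one_ne_zero, by rw [scale_one]; exact hyU⟩
      (fun _ => 1)
    rwa [scale_one] at h1
  · rintro g ⟨U, hU, hg⟩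
    refine ⟨interior U, interior_mem_nhds.2 hU, fun y hy => ?_⟩
    rintro ⟨c, -, hcU⟩ t
    exact vanish_orbit σ hσ m isOpen_interior y g
      (fun t ht htU => hg _ (hS y hy t ht) (interior_subset htU)) c hcU t

/-- The local Zariski closures of finitely many orbits of the torus. -/
theorem finite_orbits (σ : K →+* L) (hσ : DenseRange σ) (m : ι → κ → ℕ) {S : Set (ι → K)}
    (hS : ∀ y ∈ S, ∀ t : κ → K, (∀ k, t k ≠ 0) → scale m t y ∈ S) (E : Finset (ι → K))
    (hE : ∀ y ∈ S, ∃ e ∈ E, ∃ t : κ → K, (∀ k, t k ≠ 0) ∧ y = scale m t e) :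
    {J | ∃ x : ι → L, J = localIdeal σ S x}.Finite := by
  classical
  refine ((E.powerset.finite_toSet).image fun E' : Finset (ι → K) =>
    {g : MvPolynomial ι K | ∀ e ∈ E', ∀ t : κ → K, eval (scale m t e) g = 0}).subset ?_
  rintro J ⟨x, rfl⟩
  let near : (ι → K) → Prop := fun e => e ∈ S ∧ ∀ U : Set (ι → L), IsOpen U → x ∈ U →
    ∃ c : κ → L, scale m c (fun i => σ (e i)) ∈ U
  refine ⟨E.filter near, ?_, ?_⟩
  · rw [Finset.mem_coe, Finset.mem_powerset]
    exact Finset.filter_subset _ _
  apply Set.Subset.antisymm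
  · intro g hg
    simp only [Set.mem_ofPred_eq, Finset.mem_filter] at hg
    -- an open neighbourhood which misses the other orbits
    have h1 : ∀ e ∈ E, ∃ U : Set (ι → L), IsOpen U ∧ x ∈ U ∧ (¬ near e →
        ∀ t : κ → K, (∀ k, t k ≠ 0) → scale m t e ∈ S →
          (fun i => σ (scale m t e i)) ∉ U) := by
      intro e _
      by_cases hn : near e
      · exact ⟨Set.univ, isOpen_univ, Set.mem_univ _, fun h => absurd hn h⟩
      · by_cases heS : e ∈ S
        · have h2 : ∃ U : Set (ι → L), IsOpen U ∧ x ∈ U ∧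
              ∀ c : κ → L, scale m c (fun i => σ (e i)) ∉ U := by
            by_contra hcon
            push Not at hcon
            exact hn ⟨heS, hcon⟩
          obtain ⟨U, hU, hxU, h3⟩ := h2
          refine ⟨U, hU, hxU, fun _ t _ _ htU => ?_⟩
          rw [map_scale] at htU
          exact h3 _ htU
        · refine ⟨Set.univ, isOpen_univ, Set.mem_univ _, fun _ t ht htS => ?_⟩
          exfalso
          apply heS
          have h4 := hS _ htS (fun k => (t k)⁻¹) (fun k => inv_ne_zero (ht k))
          rw [scale_scale] at h4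
          have h5 : (fun k => (t k)⁻¹ * t k) = fun _ : κ => (1 : K) := by
            funext k
            exact inv_mul_cancel₀ (ht k)
          rw [h5, scale_one] at h4
          exact h4
    choose! U hUo hxU hUm using h1
    refine ⟨⋂ e ∈ E, U e, ?_, ?_⟩
    · exact (Filter.biInter_finset_mem E).2 fun e he => (hUo e he).mem_nhds (hxU e he)
    · intro y hy hyU
      obtain ⟨e, he, t, ht, rfl⟩ := hE y hy
      rw [Set.mem_iInter₂] at hyU
      by_cases hn : near e
      · exact hg e ⟨he, hn⟩ t
      · exact absurd (hyU e he) (hUm e he hn t ht hy)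
  · rintro g ⟨U, hU, hg⟩ e he t
    rw [Finset.mem_filter] at he
    obtain ⟨c, hc⟩ := he.2.2 (interior U) isOpen_interior (mem_interior_iff_mem_nhds.2 hU)
    exact vanish_orbit σ hσ m isOpen_interior e g
      (fun t ht htU => hg _ (hS e he.2.1 t ht) (interior_subset htU)) c hc t

end Pool.Agent.TH178.MZ
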