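import Pool.Agent.TH178.MZ.Rank
import Pool.Agent.TH178.MZ.Local
import Pool.Agent.TH178.MZ.Scale

/-! Projective varieties, and double covers of products of projective spaces. -/

set_option autoImplicit false

namespace Pool.Agent.TH178.MZ

open MvPolynomial

variable {K : Type} [Field K] {L : Type} [NontriviallyNormedField L]

/-- The ideal of the local Zariski closure, at the point of projective space with the homogeneous
coordinates `x`, of a set `T` of `K`-points of projective space (`T` is given as the set of the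
homogeneous coordinates of these points): the `f` such that for some neighbourhood `U` of `x` and
all `y ∈ T`, `y ≠ 0`, a multiple of which lies in `U`, `f` vanishes at all multiples of `y`. -/
def projIdeal {n : ℕ} (σ : K →+* L) (T : Set (Fin (n + 1) → K)) (x : Fin (n + 1) → L) :
    Set (MvPolynomial (Fin (n + 1)) K) :=
  {f | ∃ U ∈ nhds x, ∀ y : Fin (n + 1) → K, y ≠ 0 → y ∈ T →
    (∃ c : L, c ≠ 0 ∧ (fun i => c * σ (y i)) ∈ U) → ∀ t : K, eval (t • y) f = 0}

theorem projIdeal_eq {n : ℕ} (σ : K →+* L) (hσ : DenseRange σ) {T : Set (Fin (n + 1) → K)}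
    (hT : ∀ y ∈ T, ∀ t : K, t ≠ 0 → t • y ∈ T) {x : Fin (n + 1) → L} (hx : x ≠ 0) :
    projIdeal σ T x = localIdeal σ T x := by
  have h1 := coneIdeal_eq σ hσ (fun (_ : Fin (n + 1)) (_ : Unit) => 1)
    (S := {y | y ≠ 0 ∧ y ∈ T}) (by
      rintro y ⟨hy0, hyT⟩ t ht
      have h2 : scale (fun (_ : Fin (n + 1)) (_ : Unit) => 1) t y = t () • y := by
        funext l
        simp [scale]
      rw [h2]
      exact ⟨smul_ne_zero (ht ()) hy0, hT y hyT _ (ht ())⟩) x
  have h3 : projIdeal σ T x = {g : MvPolynomial (Fin (n + 1)) K | ∃ U ∈ nhds x,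
      ∀ y ∈ {y | y ≠ 0 ∧ y ∈ T}, (∃ c : Unit → L, (∀ k, c k ≠ 0) ∧
        scale (fun (_ : Fin (n + 1)) (_ : Unit) => 1) c (fun i => σ (y i)) ∈ U) →
        ∀ t : Unit → K, eval (scale (fun (_ : Fin (n + 1)) (_ : Unit) => 1) t y) g = 0} := by
    ext g
    constructor
    · rintro ⟨U, hU, hg⟩
      refine ⟨U, hU, ?_⟩
      rintro y ⟨hy0, hyT⟩ ⟨c, hc0, hcU⟩ t
      have h4 := hg y hy0 hyT ⟨c (), hc0 (), by
        have h5 : (fun i => c () * σ (y i)) =
          scale (fun (_ : Fin (n + 1)) (_ : Unit) => 1) c (fun i => σ (y i)) := by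
          funext l
          simp [scale]
        rw [h5]
        exact hcU⟩ (t ())
      have h2 : scale (fun (_ : Fin (n + 1)) (_ : Unit) => 1) t y = t () • y := by
        funext l
        simp [scale]
      rw [h2]
      exact h4
    · rintro ⟨U, hU, hg⟩
      refine ⟨U, hU, ?_⟩
      rintro y hy0 hyT ⟨c, hc0, hcU⟩ t
      have h4 := hg y ⟨hy0, hyT⟩ ⟨fun _ => c, fun _ => hc0, by
        have h5 : (fun i => c * σ (y i)) =
          scale (fun (_ : Fin (n + 1)) (_ : Unit) => 1) (fun _ => c) (fun i => σ (y i)) := by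
          funext l
          simp [scale]
        rw [← h5]
        exact hcU⟩ (fun _ => t)
      have h2 : scale (fun (_ : Fin (n + 1)) (_ : Unit) => 1) (fun _ => t) y = t • y := by
        funext l
        simp [scale]
      rw [h2] at h4
      exact h4
  rw [h3, h1]
  refine localIdeal_congr σ (U := {z | z ≠ 0}) (isOpen_ne.mem_nhds hx) ?_
  intro y hy
  constructor
  · exact fun h => h.2
  · refine fun h => ⟨?_, h⟩
    rintro rfl
    apply hy
    funext i
    exact map_zero σ

theorem isHomogeneous_smul {n : ℕ} {S : Set (MvPolynomial (Fin (n + 1)) K)}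
    (hS : ∀ f ∈ S, ∃ d : ℕ, f.IsHomogeneous d) (y : Fin (n + 1) → K)
    (hy : ∀ g ∈ S, eval y g = 0) (t : K) : ∀ g ∈ S, eval (t • y) g = 0 := by
  intro g hg
  obtain ⟨d, hd⟩ := hS g hg
  have h2 : eval (t • y) g = t ^ d * eval y g := by
    rw [eval_eq', eval_eq', Finset.mul_sum]
    refine Finset.sum_congr rfl fun m hm => ?_
    have h3 : ∑ i, m i = d := by
      have h4 := hd (mem_support_iff.1 hm)
      rw [Finsupp.weight_apply, Finsupp.sum_fintype _ _ (by simp)] at h4
      simpa using h4
    simp only [Pi.smul_apply, smul_eq_mul, mul_pow, Finset.prod_mul_distrib]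
    rw [Finset.prod_pow_eq_pow_sum, h3]
    ring
  rw [h2, hy g hg, mul_zero]

/-- The criterion for projective varieties. -/
theorem projective_criterion [CharZero K] (σ : K →+* L) (hσ : DenseRange σ) {n : ℕ}
    {S : Set (MvPolynomial (Fin (n + 1)) K)} (hS : ∀ f ∈ S, ∃ d : ℕ, f.IsHomogeneous d)
    (hp : (Ideal.span S).radical.IsPrime) {d : ℕ}
    (hd : Algebra.trdeg K (MvPolynomial (Fin (n + 1)) K ⧸ (Ideal.span S).radical) = d) {μ : Type}
    (V : μ → Derivation K (MvPolynomial (Fin (n + 1)) K) (MvPolynomial (Fin (n + 1)) K))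
    (hV : ∀ i, RationallyIntegrable {y | ∀ g ∈ S, eval y g = 0} (V i))
    (E : Finset (Fin (n + 1) → K))
    (hE : ∀ y : Fin (n + 1) → K, y ≠ 0 → (∀ g ∈ S, eval y g = 0) → bracketRank V y < d →
      ∃ e ∈ E, ∃ c : K, y = c • e) :
    {J | ∃ x : Fin (n + 1) → L, x ≠ 0 ∧
      J = projIdeal σ {y | ∀ g ∈ S, eval y g = 0} x}.Finite := by
  classical
  let B' : Set (Fin (n + 1) → K) := {y | (∀ g ∈ S, eval y g = 0) ∧ y ≠ 0 ∧
    ∃ e ∈ E, ∃ c : K, y = c • e}
  have hscale : ∀ (t : Unit → K) (y : Fin (n + 1) → K),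
      scale (fun (_ : Fin (n + 1)) (_ : Unit) => 1) t y = t () • y := by
    intro t y
    funext l
    simp [scale]
  have hfin := finite_orbits σ hσ (fun (_ : Fin (n + 1)) (_ : Unit) => 1) (S := B') (by
    rintro y ⟨hyS, hy0, e, he, c, hc⟩ t ht
    rw [hscale]
    exact ⟨isHomogeneous_smul hS y hyS _, smul_ne_zero (ht ()) hy0, e, he, t () * c, by
      rw [hc, smul_smul]⟩) E (by
    rintro y ⟨hyS, hy0, e, he, c, hc⟩
    refine ⟨e, he, fun _ => c, fun _ => ?_, ?_⟩
    · rintro rfl
      apply hy0
      rw [hc, zero_smul]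
    · rw [hscale]
      exact hc)
  refine (hfin.union (Set.finite_singleton
    ((Ideal.span S).radical : Set (MvPolynomial (Fin (n + 1)) K)))).subset ?_
  rintro J ⟨x, hx, rfl⟩
  have hvan : ∀ f ∈ (Ideal.span S).radical, ∀ y ∈ {y : Fin (n + 1) → K | ∀ g ∈ S, eval y g = 0},
      eval y f = 0 := by
    intro f hf y hy
    obtain ⟨k, hk⟩ := hf
    have h1 : Ideal.span S ≤ RingHom.ker (eval y) := by
      rw [Ideal.span_le]
      intro g hg
      exact hy g hg
    have h2 := h1 hk
    rw [RingHom.mem_ker, map_pow] at h2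
    exact eq_zero_of_pow_eq_zero h2
  rw [projIdeal_eq σ hσ (T := {y | ∀ g ∈ S, eval y g = 0})
    (fun y hy t _ => isHomogeneous_smul hS y hy t) hx]
  rcases dichotomy σ hσ hvan hd.le V hV
    (B := {y | (∀ g ∈ S, eval y g = 0) ∧ (y ≠ 0 → ∃ e ∈ E, ∃ c : K, y = c • e)})
    (fun y hy => hy.1) (fun y hy hlt => ⟨hy, fun hy0 => hE y hy0 hy hlt⟩) x with h | h
  · right
    exact h
  · left
    refine ⟨x, ?_⟩
    rw [h]
    refine localIdeal_congr σ (U := {z | z ≠ 0}) (isOpen_ne.mem_nhds hx) ?_
    intro y hy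
    have hy0 : y ≠ 0 := by
      rintro rfl
      apply hy
      funext i
      exact map_zero σ
    constructor
    · exact fun h => ⟨h.1, hy0, h.2 hy0⟩
    · exact fun h => ⟨h.1, fun _ => h.2.2⟩

/-! ### Double covers of products of projective spaces -/

variable {r : ℕ}

/-- Multihomogeneous coordinates on the product of the projective spaces of dimensions `a i`. -/
abbrev Idx (a : Fin r → ℕ) : Type := Σ i : Fin r, Fin (a i + 1)

/-- The point with the coordinates `y` (the coordinate `w` is `none`) is a point of the double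
cover: for each of the projective spaces one of the coordinates is not zero. -/
def Proper {R : Type} [Zero R] {a : Fin r → ℕ} (y : Option (Idx a) → R) : Prop :=
  ∀ i, ∃ j, y (some ⟨i, j⟩) ≠ 0

/-- The weights of the torus: `w` has multidegree `(1, ..., 1)` and the coordinates of the `k`-th
projective space have degree `1` with respect to the `k`-th factor. -/
def weight (a : Fin r → ℕ) (l : Option (Idx a)) (k : Fin r) : ℕ :=
  match l with
  | none => 1
  | some l => if l.1 = k then 1 else 0

/-- `F` is multihomogeneous of multidegree `(2, ..., 2)`. -/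
def IsMultiQuadratic {a : Fin r → ℕ} (F : MvPolynomial (Idx a) K) : Prop :=
  ∀ d ∈ F.support, ∀ k : Fin r, ∑ j : Fin (a k + 1), d ⟨k, j⟩ = 2

theorem IsMultiQuadratic.degreeOf_le {a : Fin r → ℕ} {F : MvPolynomial (Idx a) K}
    (hF : IsMultiQuadratic F) (l : Idx a) : F.degreeOf l ≤ 2 := by
  rw [degreeOf_le_iff]
  intro d hd
  rw [← hF d hd l.1]
  exact Finset.single_le_sum (f := fun j => d ⟨l.1, j⟩) (fun _ _ => Nat.zero_le _)
    (Finset.mem_univ l.2)

theorem IsMultiQuadratic.eval_scale {a : Fin r → ℕ} {F : MvPolynomial (Idx a) K}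
    (hF : IsMultiQuadratic F) (t : Fin r → K) (y : Idx a → K) :
    eval (fun l => t l.1 * y l) F = (∏ k, t k) ^ 2 * eval y F := by
  rw [eval_eq', eval_eq', Finset.mul_sum]
  refine Finset.sum_congr rfl fun d hd => ?_
  simp only [mul_pow, Finset.prod_mul_distrib]
  have h1 : ∏ l : Idx a, t l.1 ^ d l = (∏ k, t k) ^ 2 := by
    rw [Fintype.prod_sigma, ← Finset.prod_pow]
    refine Finset.prod_congr rfl fun k _ => ?_
    show ∏ j, t k ^ d ⟨k, j⟩ = t k ^ 2
    rw [Finset.prod_pow_eq_pow_sum, hF d hd k]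
  rw [h1]
  ring

theorem scale_weight_none {R : Type} [CommMonoid R] {a : Fin r → ℕ} (t : Fin r → R)
    (y : Option (Idx a) → R) : scale (weight a) t y none = (∏ k, t k) * y none := by
  simp [scale, weight]

theorem scale_weight_some {R : Type} [CommMonoid R] {a : Fin r → ℕ} (t : Fin r → R)
    (y : Option (Idx a) → R) (l : Idx a) :
    scale (weight a) t y (some l) = t l.1 * y (some l) := by
  simp only [scale, weight]
  congr 1
  rw [Finset.prod_eq_single l.1]
  · simp
  · intro k _ hk
    rw [if_neg (Ne.symm hk), pow_zero]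
  · intro h
    exact absurd (Finset.mem_univ _) h

theorem scale_cover {a : Fin r → ℕ} {F : MvPolynomial (Idx a) K} (hF : IsMultiQuadratic F)
    (y : Option (Idx a) → K) (hy : y ∈ cover F) (t : Fin r → K) :
    scale (weight a) t y ∈ cover F := by
  show scale (weight a) t y none ^ 2 = eval (fun j => scale (weight a) t y (some j)) F
  simp only [scale_weight_none, scale_weight_some]
  rw [hF.eval_scale, mul_pow, show y none ^ 2 = _ from hy]

theorem scale_proper {R : Type} [Field R] {a : Fin r → ℕ} {y : Option (Idx a) → R}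
    (hy : Proper y) {t : Fin r → R} (ht : ∀ k, t k ≠ 0) : Proper (scale (weight a) t y) := by
  intro i
  obtain ⟨j, hj⟩ := hy i
  refine ⟨j, ?_⟩
  rw [scale_weight_some]
  exact mul_ne_zero (ht i) hj

/-- The ideal of the local Zariski closure, at the point with the multihomogeneous coordinates `x`,
of a set `T` of `K`-points of the double cover (`T` is given as the set of the multihomogeneous
coordinates of these points). -/
def multiIdeal {a : Fin r → ℕ} (σ : K →+* L) (T : Set (Option (Idx a) → K))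
    (x : Option (Idx a) → L) : Set (MvPolynomial (Option (Idx a)) K) :=
  {g | ∃ U ∈ nhds x, ∀ y ∈ T, Proper y →
    (∃ c : Fin r → L, (∀ k, c k ≠ 0) ∧ scale (weight a) c (fun i => σ (y i)) ∈ U) →
    ∀ t : Fin r → K, eval (scale (weight a) t y) g = 0}

theorem isOpen_proper (a : Fin r → ℕ) : IsOpen {x : Option (Idx a) → L | Proper x} := by
  have h : {x : Option (Idx a) → L | Proper x} = ⋂ i, ⋃ j, {x | x (some ⟨i, j⟩) ≠ 0} := by
    ext x
    simp [Proper]
  rw [h]
  refine isOpen_iInter_of_finite fun i => isOpen_iUnion fun j => ?_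
  exact isOpen_ne_fun (continuous_apply _) continuous_const

theorem multiIdeal_eq {a : Fin r → ℕ} (σ : K →+* L) (hσ : DenseRange σ)
    {T : Set (Option (Idx a) → K)}
    (hT : ∀ y ∈ T, ∀ t : Fin r → K, (∀ k, t k ≠ 0) → scale (weight a) t y ∈ T)
    {x : Option (Idx a) → L} (hx : Proper x) : multiIdeal σ T x = localIdeal σ T x := by
  have h1 := coneIdeal_eq σ hσ (weight a) (S := {y | y ∈ T ∧ Proper y}) (by
      rintro y ⟨hyT, hyP⟩ t ht
      exact ⟨hT y hyT t ht, scale_proper hyP ht⟩) x
  have h2 : multiIdeal σ T x = {g : MvPolynomial (Option (Idx a)) K | ∃ U ∈ nhds x,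
      ∀ y ∈ {y | y ∈ T ∧ Proper y},
      (∃ c : Fin r → L, (∀ k, c k ≠ 0) ∧ scale (weight a) c (fun i => σ (y i)) ∈ U) →
        ∀ t : Fin r → K, eval (scale (weight a) t y) g = 0} := by
    ext g
    constructor
    · rintro ⟨U, hU, hg⟩
      exact ⟨U, hU, fun y hy => hg y hy.1 hy.2⟩
    · rintro ⟨U, hU, hg⟩
      exact ⟨U, hU, fun y hy hyP => hg y ⟨hy, hyP⟩⟩
  rw [h2, h1]
  refine localIdeal_congr σ (U := {z | Proper z}) ((isOpen_proper a).mem_nhds hx) ?_
  intro y hy
  constructor
  · exact fun h => h.1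
  · refine fun h => ⟨h, fun i => ?_⟩
    obtain ⟨j, hj⟩ := hy i
    refine ⟨j, fun h0 => hj ?_⟩
    show σ (y (some ⟨i, j⟩)) = 0
    rw [h0, map_zero]

/-- The `K`-points of the double cover `w² = F` at which `w` and all partial derivatives of `F`
vanish: its singular `K`-points. -/
def singular {τ : Type} (F : MvPolynomial τ K) : Set (Option τ → K) :=
  {y | y ∈ cover F ∧ y none = 0 ∧ ∀ l, eval (fun j => y (some j)) (pderiv l F) = 0}

/-- The dichotomy for affine double covers `w² = f(t)`, `f` of degree at most two in each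
variable. -/
theorem cover_dichotomy [CharZero K] {τ : Type} [Fintype τ] [DecidableEq τ] (σ : K →+* L)
    (hσ : DenseRange σ) {f : MvPolynomial τ K} (hsq : ¬ IsSquare f) (hf : ∀ i, f.degreeOf i ≤ 2)
    (x : Option τ → L) :
    localIdeal σ (cover f) x = coverIdeal f ∨
      localIdeal σ (cover f) x = localIdeal σ (singular f) x := by
  have hp := prime_cover hsq
  refine dichotomy σ hσ (vanish_cover f) (trdeg_cover hsq) (field f)
    (fun i => field_integrable f i (hf i)) (fun y hy => hy.1) ?_ x
  intro y hy hlt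
  by_contra hcon
  apply absurd hlt
  rw [not_lt]
  apply card_le_bracketRank
  by_contra h
  push Not at h
  exact hcon ⟨hy, h.1, h.2⟩

theorem pderiv_dilate {τ : Type} (c : τ → K) (l : τ) (g : MvPolynomial τ K) :
    pderiv l (aeval (fun l => C (c l) * X l) g) =
      C (c l) * aeval (fun l => C (c l) * (X l : MvPolynomial τ K)) (pderiv l g) := by
  classical
  induction g using MvPolynomial.induction_on with
  | C b => rw [aeval_C, algebraMap_eq, pderiv_C, map_zero, mul_zero]
  | add p q hp hq => rw [map_add, map_add, hp, hq, map_add, map_add, mul_add]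
  | mul_X p j hp =>
    rw [map_mul, aeval_X, Derivation.leibniz, hp, pderiv_C_mul, Derivation.leibniz, pderiv_X,
      map_add]
    simp only [smul_eq_mul, map_mul, aeval_X]
    by_cases h : j = l
    · subst h
      rw [Pi.single_eq_same, map_one]
      ring
    · rw [Pi.single_eq_of_ne h, map_zero]
      ring

theorem scale_singular [CharZero K] {a : Fin r → ℕ} {F : MvPolynomial (Idx a) K}
    (hF : IsMultiQuadratic F) (y : Option (Idx a) → K) (hy : y ∈ singular F) (t : Fin r → K)
    (ht : ∀ k, t k ≠ 0) : scale (weight a) t y ∈ singular F := by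
  refine ⟨scale_cover hF y hy.1 t, ?_, fun l => ?_⟩
  · rw [scale_weight_none, hy.2.1, mul_zero]
  · simp only [scale_weight_some]
    have h0 : ∀ (z : Idx a → K) (g : MvPolynomial (Idx a) K),
        eval z (aeval (fun l : Idx a => C (t l.1) * (X l : MvPolynomial (Idx a) K)) g) =
        eval (fun l => t l.1 * z l) g := by
      intro z g
      induction g using MvPolynomial.induction_on with
      | C b => rw [aeval_C, algebraMap_eq, eval_C, eval_C]
      | add p q hp hq => rw [map_add, map_add, hp, hq, map_add]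
      | mul_X p j hp => rw [map_mul, map_mul, hp, aeval_X, map_mul, map_mul, eval_C, eval_X, eval_X]
    have h1 : aeval (fun l : Idx a => C (t l.1) * (X l : MvPolynomial (Idx a) K)) F =
        C ((∏ k, t k) ^ 2) * F := by
      apply MvPolynomial.funext
      intro z
      rw [h0, hF.eval_scale, map_mul, eval_C]
    have h2 := congrArg (fun g => eval (fun j => y (some j)) (pderiv l g)) h1
    simp only [pderiv_dilate (fun l : Idx a => t l.1) l F, pderiv_C_mul, map_mul, eval_C, h0,
      hy.2.2 l, mul_zero] at h2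
    exact (mul_eq_zero.1 h2).resolve_left (ht l.1)

theorem multi_dichotomy [CharZero K] (σ : K →+* L) (hσ : DenseRange σ) {a : Fin r → ℕ}
    {F : MvPolynomial (Idx a) K} (hF : IsMultiQuadratic F) (hsq : ¬ IsSquare F)
    {x : Option (Idx a) → L} (hx : Proper x) :
    multiIdeal σ (cover F) x = coverIdeal F ∨
      multiIdeal σ (cover F) x = multiIdeal σ (singular F) x := by
  classical
  rw [multiIdeal_eq σ hσ (fun y hy t _ => scale_cover hF y hy t) hx,
    multiIdeal_eq σ hσ (fun y hy t ht => scale_singular hF y hy t ht) hx]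
  exact cover_dichotomy σ hσ hsq hF.degreeOf_le x

theorem multi_finite [CharZero K] (σ : K →+* L) (hσ : DenseRange σ) {a : Fin r → ℕ}
    {F : MvPolynomial (Idx a) K} (hF : IsMultiQuadratic F) (hsq : ¬ IsSquare F)
    (E : Finset (Option (Idx a) → K))
    (hE : ∀ y ∈ singular F, Proper y → ∃ e ∈ E, ∃ t : Fin r → K, (∀ k, t k ≠ 0) ∧
      y = scale (weight a) t e) :
    {J | ∃ x : Option (Idx a) → L, Proper x ∧ J = multiIdeal σ (cover F) x}.Finite := by
  classical
  have hfin := finite_orbits σ hσ (weight a) (S := {y | y ∈ singular F ∧ Proper y}) (by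
    rintro y ⟨hyS, hyP⟩ t ht
    exact ⟨scale_singular hF y hyS t ht, scale_proper hyP ht⟩) E (fun y hy => hE y hy.1 hy.2)
  refine (hfin.union (Set.finite_singleton
    (coverIdeal F : Set (MvPolynomial (Option (Idx a)) K)))).subset ?_
  rintro J ⟨x, hx, rfl⟩
  rcases multi_dichotomy σ hσ hF hsq hx with h | h
  · right
    exact h
  · left
    refine ⟨x, ?_⟩
    rw [h, multiIdeal_eq σ hσ (fun y hy t ht => scale_singular hF y hy t ht) hx]
    refine localIdeal_congr σ (U := {z | Proper z}) ((isOpen_proper a).mem_nhds hx) ?_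
    intro y hy
    constructor
    · refine fun h => ⟨h, fun i => ?_⟩
      obtain ⟨j, hj⟩ := hy i
      refine ⟨j, fun h0 => hj ?_⟩
      show σ (y (some ⟨i, j⟩)) = 0
      rw [h0, map_zero]
    · exact fun h => h.1

end Pool.Agent.TH178.MZ
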