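import Pool.Agent.TH178.MZ.Stable

/-! The points of a set of rational points near a point at which rationally integrable vector fields
generate the tangent space are Zariski dense. -/

set_option autoImplicit false

namespace Pool.Agent.TH178.MZ

open MvPolynomial

variable {K : Type} [Field K] {ι : Type}

/-- A matrix with linearly independent rows has a nonvanishing maximal minor. -/
theorem exists_minor {n : ℕ} [Finite ι] (v : Fin n → ι → K) (hv : LinearIndependent K v) :
    ∃ e : Fin n ↪ ι, (Matrix.of fun j k => v j (e k)).det ≠ 0 := by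
  classical
  have : Fintype ι := Fintype.ofFinite ι
  let A : Matrix (Fin n) ι K := Matrix.of v
  have hrank : A.rank = n := by
    have := LinearIndependent.rank_matrix (M := A) hv
    simpa using this
  have hspan : Submodule.span K (Set.range A.col) = ⊤ := by
    apply Submodule.eq_top_of_finrank_eq
    rw [← Matrix.rank_eq_finrank_span_cols, hrank]
    simp
  obtain ⟨κ, a, ha, hsp, hli⟩ := exists_linearIndependent' K A.col
  rw [hspan] at hsp
  have : Finite κ := Finite.of_injective a ha
  have : Fintype κ := Fintype.ofFinite κ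
  let b : Module.Basis κ K (Fin n → K) := Module.Basis.mk hli (by rw [hsp])
  have hcard : Fintype.card κ = n := by
    have := Module.finrank_eq_card_basis b
    simpa using this.symm
  let eq : Fin n ≃ κ := (finCongr hcard.symm).trans (Fintype.equivFin κ).symm
  refine ⟨⟨fun k => a (eq k), fun i j h => eq.injective (ha h)⟩, ?_⟩
  have h1 : LinearIndependent K (Matrix.of fun j k => v j (a (eq k))).col := by
    have h2 : (Matrix.of fun j k => v j (a (eq k))).col = (A.col ∘ a) ∘ eq := by
      funext k j
      rfl
    rw [h2]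
    exact hli.comp _ eq.injective
  rw [Matrix.linearIndependent_cols_iff_isUnit] at h1
  exact ((Matrix.isUnit_iff_isUnit_det _).1 h1).ne_zero

/-- If the functions vanishing on a set `T` of points are preserved by vector fields which generate
the directions of `n` of the coordinates at all points of `T`, then no polynomial in these
coordinates vanishes on `T`. -/
theorem eq_zero_of_det [CharZero K] [Fintype ι] {T : Set (ι → K)} (hT : T.Nonempty) {n : ℕ}
    (D : Fin n → Derivation K (MvPolynomial ι K) (MvPolynomial ι K))
    (hD : ∀ j, ∀ g : MvPolynomial ι K, (∀ y ∈ T, eval y g = 0) → ∀ y ∈ T, eval y (D j g) = 0)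
    (e : Fin n ↪ ι) (hdet : ∀ y ∈ T, (Matrix.of fun j k => eval y (D j (X (e k)))).det ≠ 0)
    (G : MvPolynomial (Fin n) K) (hG : ∀ y ∈ T, eval y (rename e G) = 0) : G = 0 := by
  classical
  obtain ⟨y₀, hy₀⟩ := hT
  refine Pool.Agent.W572.zero_of_pderiv_closed
    {G : MvPolynomial (Fin n) K | ∀ y ∈ T, eval y (rename e G) = 0} (fun k => y₀ (e k)) ?_ ?_ G hG
  · intro H hH
    have h1 := hH y₀ hy₀
    rw [eval_rename] at h1
    exact h1
  · intro H hH l y hy
    have hz : (Matrix.of fun j k => eval y (D j (X (e k)))).mulVec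
        (fun k => eval y (rename e (pderiv k H))) = 0 := by
      funext j
      have h1 := hD j _ hH y hy
      rw [Pool.Agent.W572.derivation_eq_sum (D j), map_sum] at h1
      rw [Matrix.mulVec, dotProduct, Pi.zero_apply, ← h1]
      rw [← Finset.sum_subset (Finset.subset_univ (Finset.univ.map e))]
      · rw [Finset.sum_map]
        refine Finset.sum_congr rfl fun k _ => ?_
        rw [Matrix.of_apply, map_mul, pderiv_rename e.injective, mul_comm]
      · intro i _ hi
        have h2 : pderiv i (rename e H) = 0 := by
          refine pderiv_eq_zero_of_notMem_vars ?_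
          intro h6
          have h7 := vars_rename (e : Fin n → ι) H h6
          rw [Finset.mem_image] at h7
          obtain ⟨k, -, hk⟩ := h7
          apply hi
          rw [Finset.mem_map]
          exact ⟨k, Finset.mem_univ _, hk⟩
        rw [h2, zero_mul, map_zero]
    exact congrFun (Matrix.eq_zero_of_mulVec_eq_zero (hdet y hy) hz) l

/-- An ideal of functions which contains the prime ideal `p` but no polynomial in `n` of the
coordinates, `n` the dimension of `p`, is `p`. -/
theorem mem_of_vanish {T : Set (ι → K)} {n : ℕ} {p : Ideal (MvPolynomial ι K)} [p.IsPrime]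
    (hp : ∀ f ∈ p, ∀ y ∈ T, eval y f = 0) (htr : Algebra.trdeg K (MvPolynomial ι K ⧸ p) ≤ n)
    (e : Fin n → ι) (hinj : ∀ G : MvPolynomial (Fin n) K,
      (∀ y ∈ T, eval y (rename e G) = 0) → G = 0)
    (f : MvPolynomial ι K) (hf : ∀ y ∈ T, eval y f = 0) : f ∈ p := by
  classical
  let x : Fin n → MvPolynomial ι K ⧸ p := fun j => Ideal.Quotient.mk p (X (e j))
  have hx : ∀ G : MvPolynomial (Fin n) K, aeval x G = Ideal.Quotient.mk p (rename e G) := by
    intro G
    have h1 : (aeval x : MvPolynomial (Fin n) K →ₐ[K] _) =
        (Ideal.Quotient.mkₐ K p).comp (rename e) := by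
      apply MvPolynomial.algHom_ext
      intro j
      rw [aeval_X, AlgHom.comp_apply, rename_X, Ideal.Quotient.mkₐ_eq_mk]
    rw [h1, AlgHom.comp_apply, Ideal.Quotient.mkₐ_eq_mk]
  have hind : AlgebraicIndependent K x := by
    rw [algebraicIndependent_iff]
    intro G hG
    rw [hx, Ideal.Quotient.eq_zero_iff_mem] at hG
    exact hinj G (hp _ hG)
  have hb : IsTranscendenceBasis K x := by
    refine hind.isTranscendenceBasis_of_trdeg_le_of_finite ?_
    rw [Cardinal.mk_fin]
    exact htr
  have := hb.isAlgebraic
  by_contra hfp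
  have hne : Ideal.Quotient.mk p f ≠ 0 := by
    rwa [Ne, Ideal.Quotient.eq_zero_iff_mem]
  have halg : IsAlgebraic (Algebra.adjoin K (Set.range x)) (Ideal.Quotient.mk p f) :=
    Algebra.IsAlgebraic.isAlgebraic _
  obtain ⟨q, hq0, hq⟩ := halg.exists_nonzero_coeff_and_aeval_eq_zero
    (mem_nonZeroDivisors_of_ne_zero hne)
  apply hq0
  obtain ⟨G, hG⟩ : ∃ G : MvPolynomial (Fin n) K, aeval x G = (q.coeff 0 : MvPolynomial ι K ⧸ p) := by
    exact (Algebra.adjoin_range_eq_range_aeval K x).le (q.coeff 0).2
  obtain ⟨h, hh⟩ := Ideal.Quotient.mk_surjective (Polynomial.aeval (Ideal.Quotient.mk p f) q.divX)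
  have h2 : Ideal.Quotient.mk p (h * f + rename e G) = 0 := by
    rw [map_add, map_mul, hh, ← hx, hG]
    have h3 := congrArg (Polynomial.aeval (Ideal.Quotient.mk p f)) (Polynomial.divX_mul_X_add q)
    rw [map_add, map_mul, Polynomial.aeval_X, Polynomial.aeval_C, hq] at h3
    exact h3
  rw [Ideal.Quotient.eq_zero_iff_mem] at h2
  have hG0 : G = 0 := by
    apply hinj
    intro y hy
    have h4 := hp _ h2 y hy
    rw [map_add, map_mul, hf y hy, mul_zero, zero_add] at h4
    exact h4
  rw [hG0, map_zero] at hG
  exact Subtype.ext hG.symm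

end Pool.Agent.TH178.MZ
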