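import Mathlib

/-!
# Local Zariski closures of sets of rational points, vector fields and rational curves
-/

set_option autoImplicit false

namespace Pool.Agent.TH178.MZ

open MvPolynomial

variable {K : Type} [Field K] {ι : Type}

/-- The value at the point `y` of a polynomial vector field `V` on affine space. -/
noncomputable def valueAt (y : ι → K) :
    Derivation K (MvPolynomial ι K) (MvPolynomial ι K) →ₗ[K] (ι → K) where
  toFun V := fun l => eval y (V (X l))
  map_add' V W := by
    funext l
    simp only [Derivation.add_apply, map_add, Pi.add_apply]
  map_smul' c V := by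
    funext l
    simp only [Derivation.smul_apply, smul_eval, Pi.smul_apply, smul_eq_mul, RingHom.id_apply]

theorem valueAt_apply (y : ι → K) (V : Derivation K (MvPolynomial ι K) (MvPolynomial ι K))
    (l : ι) : valueAt y V l = eval y (V (X l)) := rfl

/-- A polynomial vector field `V` is *rationally integrable* on a set `S` of `K`-points if through
every point `y` of `S` with `V(y) ≠ 0` there is a rational curve `t ↦ num(t) / den(t)` over `K`,
regular at `t = 0` and with values in `S`, which is at `y` for `t = 0`, and whose velocity there is
a nonzero multiple of `V(y)`. -/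
def RationallyIntegrable (S : Set (ι → K))
    (V : Derivation K (MvPolynomial ι K) (MvPolynomial ι K)) : Prop :=
  ∀ y ∈ S, valueAt y V ≠ 0 → ∃ (num : ι → Polynomial K) (den : Polynomial K) (c : K),
    den.eval 0 ≠ 0 ∧ c ≠ 0 ∧
    (∀ l, (num l).eval 0 = den.eval 0 * y l) ∧
    (∀ l, (num l).derivative.eval 0 = den.derivative.eval 0 * y l + c * valueAt y V l) ∧
    ∀ t : K, den.eval t ≠ 0 → (fun l => (num l).eval t / den.eval t) ∈ S

/-- The dimension of the space of the values at `y` of the members of the Lie algebra generated by
the vector fields `V i`. -/
noncomputable def bracketRank {μ : Type}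
    (V : μ → Derivation K (MvPolynomial ι K) (MvPolynomial ι K)) (y : ι → K) : ℕ :=
  Module.finrank K (Submodule.map (valueAt y)
    (LieSubalgebra.lieSpan K (Derivation K (MvPolynomial ι K) (MvPolynomial ι K))
      (Set.range V)).toSubmodule)

/-- The ideal of the local Zariski closure at `x ∈ L^ι` of a set `S` of `K`-points: the polynomials
over `K` which vanish at all points of `S` in some neighbourhood of `x`. -/
def localIdeal {L : Type} [NontriviallyNormedField L] (σ : K →+* L) (S : Set (ι → K))
    (x : ι → L) : Set (MvPolynomial ι K) :=
  {f | ∃ U ∈ nhds x, ∀ y ∈ S, (fun i => σ (y i)) ∈ U → eval y f = 0}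

end Pool.Agent.TH178.MZ
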