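import Pool.Agent.TH178.MZ.Stable

/-! Polynomials of degree at most two in one of the variables, and the double covers
`w² = f(t)`: the curves and the vector fields. -/

set_option autoImplicit false

namespace Pool.Agent.TH178.MZ

open MvPolynomial

variable {K : Type} [Field K] {τ : Type}

theorem derivative_line [DecidableEq τ] (t : τ → K) (i : τ) (f : MvPolynomial τ K) :
    Polynomial.derivative (aeval (fun j => if j = i then Polynomial.C (t i) + Polynomial.X
      else Polynomial.C (t j)) f) =
    aeval (fun j => if j = i then Polynomial.C (t i) + Polynomial.X
      else Polynomial.C (t j)) (pderiv i f) := by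
  induction f using MvPolynomial.induction_on with
  | C a =>
    rw [pderiv_C, map_zero, aeval_C]
    exact Polynomial.derivative_C
  | add p q hp hq => rw [map_add, Polynomial.derivative_add, hp, hq, map_add, map_add]
  | mul_X p j hp =>
    rw [map_mul, aeval_X, Polynomial.derivative_mul, hp, Derivation.leibniz, pderiv_X, map_add,
      smul_eq_mul, smul_eq_mul, map_mul, map_mul, aeval_X]
    by_cases h : j = i
    · subst h
      simp only [if_true, Polynomial.derivative_add, Polynomial.derivative_C,
        Polynomial.derivative_X, Pi.single_eq_same, map_one]
      ring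
    · rw [if_neg h, Polynomial.derivative_C, Pi.single_eq_of_ne h, map_zero]
      ring

theorem eval_line [DecidableEq τ] (t : τ → K) (i : τ) (f : MvPolynomial τ K) (s : K) :
    (aeval (fun j => if j = i then Polynomial.C (t i) + Polynomial.X
      else Polynomial.C (t j)) f).eval s = eval (Function.update t i (t i + s)) f := by
  induction f using MvPolynomial.induction_on with
  | C a =>
    rw [aeval_C, eval_C]
    exact Polynomial.eval_C
  | add p q hp hq => rw [map_add, Polynomial.eval_add, hp, hq, map_add]
  | mul_X p j hp =>
    rw [map_mul, aeval_X, Polynomial.eval_mul, hp, map_mul, eval_X]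
    congr 1
    by_cases h : j = i
    · subst h
      rw [if_pos rfl, Function.update_self, Polynomial.eval_add, Polynomial.eval_C,
        Polynomial.eval_X]
    · rw [if_neg h, Function.update_of_ne h, Polynomial.eval_C]

theorem natDegree_line [Fintype τ] [DecidableEq τ] (t : τ → K) (i : τ) (f : MvPolynomial τ K) :
    (aeval (fun j => if j = i then Polynomial.C (t i) + Polynomial.X
      else Polynomial.C (t j)) f : Polynomial K).natDegree ≤ f.degreeOf i := by
  rw [aeval_def, eval₂_eq']
  refine Polynomial.natDegree_sum_le_of_forall_le _ _ fun d hd => ?_
  refine (Polynomial.natDegree_C_mul_le _ _).trans ?_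
  refine (Polynomial.natDegree_prod_le _ _).trans ?_
  rw [Finset.sum_eq_single i]
  · rw [if_pos rfl]
    refine (Polynomial.natDegree_pow_le).trans ?_
    have h1 : (Polynomial.C (t i) + Polynomial.X : Polynomial K).natDegree ≤ 1 := by
      rw [add_comm]
      exact (Polynomial.natDegree_X_add_C (t i)).le
    calc d i * (Polynomial.C (t i) + Polynomial.X : Polynomial K).natDegree ≤ d i * 1 :=
          Nat.mul_le_mul_left _ h1
      _ = d i := mul_one _
      _ ≤ f.degreeOf i := monomial_le_degreeOf i hd
  · intro j _ hj
    rw [if_neg hj, ← Polynomial.C_pow, Polynomial.natDegree_C]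
  · intro h
    exact absurd (Finset.mem_univ _) h

/-- The restriction of a polynomial of degree at most two in `t_i` to a line in this direction. -/
theorem exists_quadratic [Fintype τ] [DecidableEq τ] (f : MvPolynomial τ K) (i : τ)
    (hf : f.degreeOf i ≤ 2) (t : τ → K) :
    ∃ a : K, ∀ s : K, eval (Function.update t i (t i + s)) f =
      a * s ^ 2 + eval t (pderiv i f) * s + eval t f := by
  let q : Polynomial K := aeval (fun j => if j = i then Polynomial.C (t i) + Polynomial.X
      else Polynomial.C (t j)) f
  have hq : q.natDegree ≤ 2 := (natDegree_line t i f).trans hf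
  have h0 : q.coeff 0 = eval t f := by
    rw [Polynomial.coeff_zero_eq_eval_zero, eval_line, add_zero, Function.update_eq_self]
  have h1 : q.coeff 1 = eval t (pderiv i f) := by
    have h2 := congrArg (Polynomial.eval 0) (derivative_line t i f)
    rw [eval_line, add_zero, Function.update_eq_self] at h2
    rw [← h2, ← Polynomial.coeff_zero_eq_eval_zero, Polynomial.coeff_derivative]
    simp [q]
  refine ⟨q.coeff 2, fun s => ?_⟩
  rw [← eval_line, ← h0, ← h1]
  show q.eval s = _
  rw [Polynomial.eval_eq_sum_range' (Nat.lt_succ_of_le hq), Finset.sum_range_succ,
    Finset.sum_range_succ, Finset.sum_range_one]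
  ring

/-- The `K`-points of the affine double cover `w² = f(t)`; the coordinate `w` is `none`. -/
def cover (f : MvPolynomial τ K) : Set (Option τ → K) :=
  {y | y none ^ 2 = eval (fun j => y (some j)) f}

/-- The vector field `∂f/∂t_i ∂_w + 2 w ∂_{t_i}`, tangent to the double cover `w² = f(t)`. -/
noncomputable def field [DecidableEq τ] (f : MvPolynomial τ K) (i : τ) :
    Derivation K (MvPolynomial (Option τ) K) (MvPolynomial (Option τ) K) :=
  mkDerivation K (fun l : Option τ => match l with
    | none => rename some (pderiv i f)
    | some j => if j = i then C 2 * X none else 0)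

theorem field_none [DecidableEq τ] (f : MvPolynomial τ K) (i : τ) :
    field f i (X none) = rename some (pderiv i f) := by
  rw [field, mkDerivation_X]

theorem field_some [DecidableEq τ] (f : MvPolynomial τ K) (i j : τ) :
    field f i (X (some j)) = if j = i then C 2 * X none else 0 := by
  rw [field, mkDerivation_X]

theorem eval_rename_some (y : Option τ → K) (g : MvPolynomial τ K) :
    eval y (rename some g) = eval (fun j => y (some j)) g := by
  rw [eval_rename]
  rfl

theorem valueAt_none [DecidableEq τ] (f : MvPolynomial τ K) (i : τ) (y : Option τ → K) :
    valueAt y (field f i) none = eval (fun j => y (some j)) (pderiv i f) := by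
  rw [valueAt_apply, field_none, eval_rename_some]

theorem valueAt_some [DecidableEq τ] (f : MvPolynomial τ K) (i j : τ) (y : Option τ → K) :
    valueAt y (field f i) (some j) = if j = i then 2 * y none else 0 := by
  rw [valueAt_apply, field_some]
  split_ifs
  · rw [map_mul, eval_C, eval_X]
  · rw [map_zero]

theorem field_integrable [CharZero K] [Fintype τ] [DecidableEq τ] (f : MvPolynomial τ K) (i : τ)
    (hf : f.degreeOf i ≤ 2) : RationallyIntegrable (cover f) (field f i) := by
  intro y hy hV
  obtain ⟨a, ha⟩ := exists_quadratic f i hf (fun j => y (some j))
  obtain ⟨b, hb⟩ : ∃ b, b = eval (fun j => y (some j)) (pderiv i f) := ⟨_, rfl⟩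
  obtain ⟨w, hw⟩ : ∃ w, w = y none := ⟨_, rfl⟩
  have hyw : w ^ 2 = eval (fun j => y (some j)) f := by rw [hw]; exact hy
  rw [← hb, ← hyw] at ha
  have hV' : b ≠ 0 ∨ w ≠ 0 := by
    by_contra hcon
    push Not at hcon
    apply hV
    funext l
    match l with
    | none => rw [valueAt_none, ← hb, hcon.1]; rfl
    | some j =>
      rw [valueAt_some, ← hw, hcon.2, mul_zero]
      simp
  -- membership of the points
  have hmem : ∀ s w' : K, w' ^ 2 = a * s ^ 2 + b * s + w ^ 2 →
      ∀ z : Option τ → K, z none = w' → (∀ j, z (some j) =
        if j = i then y (some i) + s else y (some j)) → z ∈ cover f := by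
    intro s w' h1 z hz0 hz
    show z none ^ 2 = eval (fun j => z (some j)) f
    have h2 : (fun j => z (some j)) =
        Function.update (fun j => y (some j)) i (y (some i) + s) := by
      funext j
      rw [hz, Function.update_apply]
    rw [hz0, h1, h2, ha]
  by_cases hdisc : b ^ 2 - 4 * a * w ^ 2 = 0
  · -- a pair of lines
    have hw0 : w ≠ 0 := by
      intro h
      rw [h] at hdisc
      have h1 : b = 0 := by
        have : b ^ 2 = 0 := by linear_combination hdisc
        exact pow_eq_zero_iff (two_ne_zero) |>.1 this
      rcases hV' with h2 | h2
      · exact h2 h1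
      · exact h2 h
    refine ⟨fun l => match l with
      | none => Polynomial.C w + Polynomial.C b * Polynomial.X
      | some j => if j = i then Polynomial.C (y (some i)) + Polynomial.C (2 * w) * Polynomial.X
        else Polynomial.C (y (some j)), 1, 1, by simp, one_ne_zero, ?_, ?_, ?_⟩
    · intro l
      match l with
      | none => simp [hw]
      | some j =>
        by_cases h : j = i
        · subst h; simp
        · simp [h]
    · intro l
      match l with
      | none => simp [valueAt_none, hb]
      | some j =>
        by_cases h : j = i
        · subst h; simp [valueAt_some, hw]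
        · simp [valueAt_some, h]
    · intro t _
      refine hmem (2 * w * t) (w + b * t) ?_ _ ?_ ?_
      · linear_combination t ^ 2 * hdisc
      · simp
      · intro j
        by_cases h : j = i
        · subst h; simp
        · simp [h]
  · -- a smooth conic
    obtain ⟨α, β, hκ⟩ : ∃ α β : K, b * β - 2 * w * α ≠ 0 := by
      rcases hV' with h | h
      · exact ⟨0, 1, by simpa using h⟩
      · exact ⟨1, 0, by simpa using h⟩
    obtain ⟨κ, hκ'⟩ : ∃ κ, κ = b * β - 2 * w * α := ⟨_, rfl⟩
    rw [← hκ'] at hκ
    obtain ⟨D, hD⟩ : ∃ D : Polynomial K, D =
        (Polynomial.C b + Polynomial.C α * Polynomial.X) ^ 2 - Polynomial.C a *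
          (Polynomial.C (2 * w) + Polynomial.C β * Polynomial.X) ^ 2 := ⟨_, rfl⟩
    have hDt : ∀ t, D.eval t = (b + α * t) ^ 2 - a * (2 * w + β * t) ^ 2 := by
      intro t
      rw [hD]
      simp
    have hD0 : D.eval 0 ≠ 0 := by
      rw [hDt]
      intro h
      apply hdisc
      linear_combination h
    refine ⟨fun l => match l with
      | none => Polynomial.C w * D +
          (Polynomial.C b + Polynomial.C α * Polynomial.X) * (Polynomial.C κ * Polynomial.X)
      | some j => Polynomial.C (y (some j)) * D + (if j = i then
          (Polynomial.C (2 * w) + Polynomial.C β * Polynomial.X) *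
            (Polynomial.C κ * Polynomial.X) else 0), D, κ, hD0, hκ, ?_, ?_, ?_⟩
    · intro l
      match l with
      | none =>
        simp only [Polynomial.eval_add, Polynomial.eval_mul, Polynomial.eval_C,
          Polynomial.eval_X, ← hw]
        ring
      | some j =>
        by_cases h : j = i
        · subst h
          simp only [if_true, Polynomial.eval_add, Polynomial.eval_mul, Polynomial.eval_C,
            Polynomial.eval_X]
          ring
        · simp only [h, if_false, Polynomial.eval_add, Polynomial.eval_mul, Polynomial.eval_C,
            Polynomial.eval_zero]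
          ring
    · intro l
      match l with
      | none =>
        simp only [valueAt_none, ← hb, Polynomial.derivative_add, Polynomial.derivative_mul,
          Polynomial.derivative_C, Polynomial.derivative_X, Polynomial.eval_add,
          Polynomial.eval_mul, Polynomial.eval_C, Polynomial.eval_X, Polynomial.eval_zero,
          Polynomial.eval_one, ← hw]
        ring
      | some j =>
        by_cases h : j = i
        · subst h
          simp only [valueAt_some, if_true, Polynomial.derivative_add, Polynomial.derivative_mul,
            Polynomial.derivative_C, Polynomial.derivative_X, Polynomial.eval_add,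
            Polynomial.eval_mul, Polynomial.eval_C, Polynomial.eval_X, Polynomial.eval_zero,
            Polynomial.eval_one, ← hw]
          ring
        · simp only [valueAt_some, h, if_false, Polynomial.derivative_add,
            Polynomial.derivative_mul, Polynomial.derivative_C, Polynomial.derivative_zero,
            Polynomial.eval_add, Polynomial.eval_mul, Polynomial.eval_C, Polynomial.eval_zero]
          ring
    · intro t ht
      refine hmem ((2 * w + β * t) * (κ * t) / D.eval t) (w + (b + α * t) * (κ * t) / D.eval t)
        ?_ _ ?_ ?_
      · have h1 := hDt t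
        field_simp
        linear_combination (-(κ * t) ^ 2) * h1 + (D.eval t * (κ * t)) * t * hκ'
      · show (Polynomial.C w * D + (Polynomial.C b + Polynomial.C α * Polynomial.X) *
          (Polynomial.C κ * Polynomial.X)).eval t / D.eval t = _
        simp only [Polynomial.eval_add, Polynomial.eval_mul, Polynomial.eval_C,
          Polynomial.eval_X]
        field_simp
      · intro j
        by_cases h : j = i
        · subst h
          show (Polynomial.C (y (some j)) * D + (if j = j then
            (Polynomial.C (2 * w) + Polynomial.C β * Polynomial.X) *
              (Polynomial.C κ * Polynomial.X) else 0)).eval t / D.eval t = _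
          simp only [if_true, Polynomial.eval_add, Polynomial.eval_mul, Polynomial.eval_C,
            Polynomial.eval_X]
          field_simp
        · show (Polynomial.C (y (some j)) * D + (if j = i then
            (Polynomial.C (2 * w) + Polynomial.C β * Polynomial.X) *
              (Polynomial.C κ * Polynomial.X) else 0)).eval t / D.eval t = _
          rw [if_neg h, if_neg h, add_zero, Polynomial.eval_mul, Polynomial.eval_C]
          field_simp

end Pool.Agent.TH178.MZ
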