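import Pool.Agent.TH178.MZ.Quad

/-! The brackets of the fields of the double cover `w² = f(t)` generate its tangent spaces, and the
prime ideal of the double cover. -/

set_option autoImplicit false

namespace Pool.Agent.TH178.MZ

open MvPolynomial

variable {K : Type} [Field K] {τ : Type} [Fintype τ] [DecidableEq τ]

omit [Fintype τ] in
theorem field_rename (f g : MvPolynomial τ K) (i : τ) :
    field f i (rename some g) = C 2 * X none * rename some (pderiv i g) := by
  induction g using MvPolynomial.induction_on with
  | C a => simp
  | add p q hp hq => rw [map_add, map_add, hp, hq, map_add, map_add, mul_add]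
  | mul_X p j hp =>
    rw [map_mul, rename_X, Derivation.leibniz, hp, field_some, Derivation.leibniz, pderiv_X,
      map_add, smul_eq_mul, smul_eq_mul, smul_eq_mul, smul_eq_mul, map_mul, map_mul, rename_X]
    by_cases h : j = i
    · subst h
      rw [if_pos rfl, Pi.single_eq_same, map_one]
      ring
    · rw [if_neg h, Pi.single_eq_of_ne h, map_zero]
      ring

omit [Fintype τ] in
theorem bracket_none (f : MvPolynomial τ K) (i j : τ) (y : Option τ → K) (hy : y none = 0) :
    valueAt y ⁅field f i, field f j⁆ none = 0 := by
  rw [valueAt_apply, Derivation.commutator_apply, field_none, field_none, field_rename,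
    field_rename, map_sub, map_mul, map_mul, map_mul, map_mul, eval_X, hy]
  ring

omit [Fintype τ] in
theorem bracket_some (f : MvPolynomial τ K) (i j l : τ) (y : Option τ → K) :
    valueAt y ⁅field f i, field f j⁆ (some l) =
      (if l = j then 2 * eval (fun j => y (some j)) (pderiv i f) else 0) -
      (if l = i then 2 * eval (fun j => y (some j)) (pderiv j f) else 0) := by
  rw [valueAt_apply, Derivation.commutator_apply, field_some, field_some, map_sub]
  congr 1
  · split_ifs
    · rw [Derivation.leibniz, derivation_C, smul_zero, add_zero, smul_eq_mul, field_none, map_mul,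
        eval_C, eval_rename_some]
    · rw [map_zero, map_zero]
  · split_ifs
    · rw [Derivation.leibniz, derivation_C, smul_zero, add_zero, smul_eq_mul, field_none, map_mul,
        eval_C, eval_rename_some]
    · rw [map_zero, map_zero]

theorem card_le_bracketRank [CharZero K] (f : MvPolynomial τ K) (y : Option τ → K)
    (hy : y none ≠ 0 ∨ ∃ k, eval (fun j => y (some j)) (pderiv k f) ≠ 0) :
    Fintype.card τ ≤ bracketRank (field f) y := by
  have key : ∀ D : τ → Derivation K (MvPolynomial (Option τ) K) (MvPolynomial (Option τ) K),
      (∀ j, D j ∈ LieSubalgebra.lieSpan K (Derivation K (MvPolynomial (Option τ) K)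
        (MvPolynomial (Option τ) K)) (Set.range (field f))) →
      LinearIndependent K (fun j => valueAt y (D j)) →
      Fintype.card τ ≤ bracketRank (field f) y := by
    intro D hD hli
    let u : τ → Submodule.map (valueAt y) (LieSubalgebra.lieSpan K (Derivation K
        (MvPolynomial (Option τ) K) (MvPolynomial (Option τ) K)) (Set.range (field f))).toSubmodule :=
      fun j => ⟨valueAt y (D j), ⟨D j, hD j, rfl⟩⟩
    have hu : LinearIndependent K u := by
      apply LinearIndependent.of_comp (Submodule.subtype _)
      exact hli
    exact hu.fintype_card_le_finrank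
  have hmem : ∀ j, field f j ∈ LieSubalgebra.lieSpan K (Derivation K (MvPolynomial (Option τ) K)
        (MvPolynomial (Option τ) K)) (Set.range (field f)) :=
    fun j => LieSubalgebra.subset_lieSpan ⟨j, rfl⟩
  by_cases h0 : y none = 0
  · obtain ⟨k, hk⟩ : ∃ k, eval (fun j => y (some j)) (pderiv k f) ≠ 0 := by
      rcases hy with h | h
      · exact absurd h0 h
      · exact h
    refine key (fun j => if j = k then field f k else ⁅field f k, field f j⁆) ?_ ?_
    · intro j
      show (if j = k then field f k else ⁅field f k, field f j⁆) ∈ _
      split_ifs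
      · exact hmem k
      · exact LieSubalgebra.lie_mem _ (hmem k) (hmem j)
    · rw [Fintype.linearIndependent_iff]
      intro c hc
      have hval : ∀ l, ∑ j, c j * valueAt y (if j = k then field f k
          else ⁅field f k, field f j⁆) l = 0 := by
        intro l
        have h1 := congrFun hc l
        rw [Finset.sum_apply] at h1
        simpa using h1
      have hck : c k = 0 := by
        have h1 := hval none
        rw [Finset.sum_eq_single k] at h1
        · rw [if_pos rfl, valueAt_none] at h1
          exact (mul_eq_zero.1 h1).resolve_right hk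
        · intro j _ hj
          rw [if_neg hj, bracket_none f k j y h0, mul_zero]
        · intro h
          exact absurd (Finset.mem_univ _) h
      intro l
      by_cases hl : l = k
      · rw [hl, hck]
      · have h1 := hval (some l)
        rw [Finset.sum_eq_single l] at h1
        · rw [if_neg hl, bracket_some, if_pos rfl, if_neg hl, sub_zero] at h1
          exact (mul_eq_zero.1 h1).resolve_right (mul_ne_zero two_ne_zero hk)
        · intro j _ hj
          by_cases hjk : j = k
          · rw [hjk, hck, zero_mul]
          · rw [if_neg hjk, bracket_some, if_neg (Ne.symm hj), if_neg hl, sub_zero, mul_zero]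
        · intro h
          exact absurd (Finset.mem_univ _) h
  · refine key (field f) hmem ?_
    rw [Fintype.linearIndependent_iff]
    intro c hc l
    have h1 := congrFun hc (some l)
    rw [Finset.sum_apply, Finset.sum_eq_single l] at h1
    · rw [Pi.smul_apply, valueAt_some, if_pos rfl, smul_eq_mul] at h1
      exact (mul_eq_zero.1 h1).resolve_right (mul_ne_zero two_ne_zero h0)
    · intro j _ hj
      rw [Pi.smul_apply, valueAt_some, if_neg (Ne.symm hj), smul_zero]
    · intro h
      exact absurd (Finset.mem_univ _) h

/-- The ideal generated by `w² - f(t)`. -/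
noncomputable def coverIdeal (f : MvPolynomial τ K) : Ideal (MvPolynomial (Option τ) K) :=
  Ideal.span {X none ^ 2 - rename some f}

omit [Fintype τ] [DecidableEq τ] in
theorem vanish_cover (f : MvPolynomial τ K) :
    ∀ g ∈ coverIdeal f, ∀ y ∈ cover f, eval y g = 0 := by
  intro g hg y hy
  rw [coverIdeal, Ideal.mem_span_singleton] at hg
  obtain ⟨h, rfl⟩ := hg
  rw [map_mul, map_sub, map_pow, eval_X, eval_rename_some, show y none ^ 2 = _ from hy, sub_self,
    zero_mul]

omit [Fintype τ] [DecidableEq τ] in
theorem optionEquivLeft_rename (f : MvPolynomial τ K) :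
    optionEquivLeft K τ (rename some f) = Polynomial.C f := by
  induction f using MvPolynomial.induction_on with
  | C a => rw [rename_C, optionEquivLeft_C]
  | add p q hp hq => rw [map_add, map_add, hp, hq, Polynomial.C_add]
  | mul_X p i hp => rw [map_mul, map_mul, hp, rename_X, optionEquivLeft_X_some, Polynomial.C_mul]

omit [Fintype τ] [DecidableEq τ] in
theorem prime_cover {f : MvPolynomial τ K} (hf : ¬ IsSquare f) : (coverIdeal f).IsPrime := by
  have he : optionEquivLeft K τ (X none ^ 2 - rename some f) =
      Polynomial.X ^ 2 - Polynomial.C f := by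
    rw [map_sub, map_pow, optionEquivLeft_X_none, optionEquivLeft_rename]
  have hirr : Irreducible (Polynomial.X ^ 2 - Polynomial.C f) := by
    rw [Polynomial.Monic.irreducible_iff_roots_eq_zero_of_degree_le_three
      (Polynomial.monic_X_pow_sub_C f two_ne_zero) (by rw [Polynomial.natDegree_X_pow_sub_C])
      (by rw [Polynomial.natDegree_X_pow_sub_C]; norm_num)]
    rw [Multiset.eq_zero_iff_forall_notMem]
    intro r hr
    rw [Polynomial.mem_roots (Polynomial.monic_X_pow_sub_C f two_ne_zero).ne_zero] at hr
    apply hf
    refine ⟨r, ?_⟩
    have h1 : Polynomial.eval r (Polynomial.X ^ 2 - Polynomial.C f) = 0 := hr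
    rw [Polynomial.eval_sub, Polynomial.eval_pow, Polynomial.eval_X, Polynomial.eval_C] at h1
    rw [← pow_two]
    exact (sub_eq_zero.1 h1).symm
  have hirr' : Irreducible (X none ^ 2 - rename some f : MvPolynomial (Option τ) K) := by
    rw [← MulEquiv.irreducible_iff (optionEquivLeft K τ), he]
    exact hirr
  rw [coverIdeal, Ideal.span_singleton_prime hirr'.ne_zero]
  exact hirr'.prime

omit [DecidableEq τ] in
theorem trdeg_cover {f : MvPolynomial τ K} (hf : ¬ IsSquare f) :
    Algebra.trdeg K (MvPolynomial (Option τ) K ⧸ coverIdeal f) ≤ Fintype.card τ := by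
  have hp := prime_cover hf
  let π := Ideal.Quotient.mk (coverIdeal f)
  let x : τ → MvPolynomial (Option τ) K ⧸ coverIdeal f := fun j => π (X (some j))
  have hx : ∀ G : MvPolynomial τ K, aeval x G = π (rename some G) := by
    intro G
    have h1 : (aeval x : MvPolynomial τ K →ₐ[K] _) =
        (Ideal.Quotient.mkₐ K (coverIdeal f)).comp (rename some) := by
      apply MvPolynomial.algHom_ext
      intro j
      rw [aeval_X, AlgHom.comp_apply, rename_X, Ideal.Quotient.mkₐ_eq_mk]
    rw [h1, AlgHom.comp_apply, Ideal.Quotient.mkₐ_eq_mk]
  have hmem : ∀ G : MvPolynomial τ K, π (rename some G) ∈ Algebra.adjoin K (Set.range x) := by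
    intro G
    rw [← hx, Algebra.adjoin_range_eq_range_aeval]
    exact ⟨G, rfl⟩
  have hint : ∀ h : MvPolynomial (Option τ) K,
      IsIntegral (Algebra.adjoin K (Set.range x)) (π h) := by
    intro h
    induction h using MvPolynomial.induction_on with
    | C a =>
      have h1 : π (C a) = algebraMap (Algebra.adjoin K (Set.range x)) _
          (algebraMap K (Algebra.adjoin K (Set.range x)) a) := rfl
      rw [h1]
      exact isIntegral_algebraMap
    | add p q hp hq => rw [map_add]; exact hp.add hq
    | mul_X p i hp =>
      rw [map_mul]
      refine hp.mul ?_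
      match i with
      | none =>
        refine ⟨Polynomial.X ^ 2 - Polynomial.C ⟨π (rename some f), hmem f⟩,
          Polynomial.monic_X_pow_sub_C _ two_ne_zero, ?_⟩
        rw [Polynomial.eval₂_sub, Polynomial.eval₂_pow, Polynomial.eval₂_X, Polynomial.eval₂_C]
        have h2 : π (X none ^ 2 - rename some f) = 0 := by
          rw [Ideal.Quotient.eq_zero_iff_mem]
          exact Ideal.subset_span rfl
        rw [map_sub, map_pow] at h2
        exact h2
      | some j =>
        have h1 : π (X (some j)) = algebraMap (Algebra.adjoin K (Set.range x)) _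
            ⟨x j, Algebra.subset_adjoin ⟨j, rfl⟩⟩ := rfl
        rw [h1]
        exact isIntegral_algebraMap
  have hI : Algebra.IsIntegral (Algebra.adjoin K (Set.range x))
      (MvPolynomial (Option τ) K ⧸ coverIdeal f) := by
    constructor
    intro a
    obtain ⟨h, rfl⟩ := Ideal.Quotient.mk_surjective a
    exact hint h
  have hA : Algebra.IsAlgebraic (Algebra.adjoin K (Set.range x))
      (MvPolynomial (Option τ) K ⧸ coverIdeal f) := inferInstance
  refine (Algebra.IsAlgebraic.trdeg_le_cardinalMk K (Set.range x)).trans ?_
  refine Cardinal.mk_range_le.trans ?_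
  rw [Cardinal.mk_fintype]

end Pool.Agent.TH178.MZ
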