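import Pool.Agent.TH178.MZ.Defs
import Pool.Agent.W572.Density

/-! Functions which vanish on the points of an open set are preserved by rationally integrable
vector fields. -/

set_option autoImplicit false

namespace Pool.Agent.TH178.MZ

open MvPolynomial

variable {K : Type} [Field K] {ι : Type}

/-- Substitution of fractions with a common denominator, cleared of denominators. -/
theorem clear_den (num : ι → Polynomial K) (den : Polynomial K) (g : MvPolynomial ι K) :
    ∃ (k : ℕ) (G : Polynomial K), ∀ (R : Type) [CommRing R] [Algebra K R]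
      (φ : Polynomial K →ₐ[K] R) (u : R), φ den * u = 1 →
      φ G = φ den ^ k * aeval (fun l => φ (num l) * u) g := by
  induction g using MvPolynomial.induction_on with
  | C a =>
    refine ⟨0, Polynomial.C a, fun R _ _ φ u _ => ?_⟩
    rw [pow_zero, one_mul, aeval_C]
    exact φ.commutes a
  | add p q hp hq =>
    obtain ⟨k, G, hG⟩ := hp
    obtain ⟨k', G', hG'⟩ := hq
    refine ⟨k + k', den ^ k' * G + den ^ k * G', fun R _ _ φ u hu => ?_⟩
    rw [map_add, map_mul, map_mul, map_pow, map_pow, hG R φ u hu, hG' R φ u hu, map_add]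
    ring
  | mul_X p i hp =>
    obtain ⟨k, G, hG⟩ := hp
    refine ⟨k + 1, G * num i, fun R _ _ φ u hu => ?_⟩
    rw [map_mul, hG R φ u hu, map_mul, aeval_X, pow_succ]
    linear_combination (-(φ den ^ k * aeval (fun l => φ (num l) * u) p * φ (num i))) * hu

/-- First order Taylor expansion of a polynomial. -/
theorem taylor [Fintype ι] (Q : ι → DualNumber K) (g : MvPolynomial ι K) :
    (aeval Q g).fst = aeval (fun l => (Q l).fst) g ∧
    (aeval Q g).snd = ∑ l, aeval (fun l => (Q l).fst) (pderiv l g) * (Q l).snd := by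
  classical
  induction g using MvPolynomial.induction_on with
  | C c =>
    have e : aeval Q (C c) = (TrivSqZeroExt.inl (algebraMap K K c) : DualNumber K) := by
      rw [aeval_C]; rfl
    refine ⟨?_, ?_⟩
    · rw [e]; simp
    · rw [e]; simp
  | add p q hp hq =>
    refine ⟨?_, ?_⟩
    · rw [map_add, TrivSqZeroExt.fst_add, hp.1, hq.1, map_add]
    · rw [map_add, TrivSqZeroExt.snd_add, hp.2, hq.2]
      simp only [map_add, add_mul, Finset.sum_add_distrib]
  | mul_X p i hp =>
    refine ⟨?_, ?_⟩
    · rw [map_mul, TrivSqZeroExt.fst_mul, hp.1, aeval_X, map_mul, aeval_X]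
    · rw [map_mul, DualNumber.snd_mul, hp.1, hp.2, aeval_X]
      simp only [Derivation.leibniz, smul_eq_mul, map_add, map_mul, pderiv_X, add_mul,
        Finset.sum_add_distrib, aeval_X]
      congr 1
      · rw [Finset.sum_eq_single i]
        · simp
        · intro b _ hb
          simp [hb.symm]
        · simp
      · rw [Finset.sum_mul]
        refine Finset.sum_congr rfl fun l _ => by ring

theorem aeval_eps (q : Polynomial K) :
    (Polynomial.aeval (TrivSqZeroExt.inr (1 : K) : DualNumber K) q).fst = q.eval 0 ∧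
    (Polynomial.aeval (TrivSqZeroExt.inr (1 : K) : DualNumber K) q).snd =
      q.derivative.eval 0 := by
  induction q using Polynomial.induction_on' with
  | add p q hp hq =>
    refine ⟨?_, ?_⟩
    · rw [map_add, TrivSqZeroExt.fst_add, hp.1, hq.1, Polynomial.eval_add]
    · rw [map_add, TrivSqZeroExt.snd_add, hp.2, hq.2, Polynomial.derivative_add,
        Polynomial.eval_add]
  | monomial n a =>
    rw [Polynomial.aeval_monomial, Polynomial.eval_monomial, Polynomial.derivative_monomial,
      Polynomial.eval_monomial]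
    have e : (algebraMap K (DualNumber K)) a = TrivSqZeroExt.inl a := rfl
    rw [e]
    match n with
    | 0 => simp
    | 1 => simp
    | n + 2 =>
      have h : (TrivSqZeroExt.inr (1 : K) : DualNumber K) ^ (n + 2) = 0 := by
        rw [pow_add, pow_two, TrivSqZeroExt.inr_mul_inr, mul_zero]
      rw [h, mul_zero]
      simp

variable {L : Type} [NontriviallyNormedField L]

/-- Every neighbourhood in `L` contains infinitely many elements of a dense subfield. -/
theorem infinite_preimage (σ : K →+* L) (hσ : DenseRange σ) (s : L) {W : Set L}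
    (hW : W ∈ nhds s) : {t : K | σ t ∈ W}.Infinite := by
  intro hfin
  have h1 : (interior W \ (σ '' {t : K | σ t ∈ W})).Nonempty := by
    have h2 : (interior W).Infinite := infinite_of_mem_nhds s (interior_mem_nhds.2 hW)
    exact (h2.sdiff (hfin.image _)).nonempty
  obtain ⟨t, ht⟩ := hσ.exists_mem_open
    (isOpen_interior.sdiff (hfin.image σ).isClosed) h1
  have h3 : σ t ∈ W := interior_subset ht.1
  exact ht.2 ⟨t, h3, rfl⟩

theorem continuous_eval₂ (σ : K →+* L) (q : Polynomial K) :
    Continuous fun s : L => q.eval₂ σ s := by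
  have h : (fun s : L => q.eval₂ σ s) = fun s => (q.map σ).eval s := by
    funext s
    rw [Polynomial.eval_map]
  rw [h]
  exact (q.map σ).continuous

theorem stable [Fintype ι] (σ : K →+* L) (hσ : DenseRange σ) {S : Set (ι → K)}
    {V : Derivation K (MvPolynomial ι K) (MvPolynomial ι K)} (hV : RationallyIntegrable S V)
    {U : Set (ι → L)} (hU : IsOpen U) (g : MvPolynomial ι K)
    (hg : ∀ y ∈ S, (fun i => σ (y i)) ∈ U → eval y g = 0) :
    ∀ y ∈ S, (fun i => σ (y i)) ∈ U → eval y (V g) = 0 := by
  classical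
  intro y hy hyU
  rw [Pool.Agent.W572.derivation_eq_sum V g, map_sum]
  by_cases h0 : valueAt y V = 0
  · refine Finset.sum_eq_zero fun l _ => ?_
    rw [map_mul, show eval y (V (X l)) = 0 from congrFun h0 l, mul_zero]
  obtain ⟨num, den, c, hden, hc, hnum0, hnum1, hcurve⟩ := hV y hy h0
  obtain ⟨k, G, hG⟩ := clear_den num den g
  have hfrac : ∀ t : K, den.eval t ≠ 0 → (fun i => σ ((num i).eval t / den.eval t)) ∈ U →
      G.IsRoot t := by
    intro t ht htU
    have h1 := hG K (Polynomial.aeval t) ((den.eval t)⁻¹)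
      (by rw [Polynomial.coe_aeval_eq_eval]; exact mul_inv_cancel₀ ht)
    rw [Polynomial.coe_aeval_eq_eval] at h1
    have h2 := hg _ (hcurve t ht) htU
    rw [Polynomial.IsRoot, h1]
    have h3 : (aeval fun l => Polynomial.eval t (num l) * (Polynomial.eval t den)⁻¹) g =
        eval (fun l => Polynomial.eval t (num l) / Polynomial.eval t den) g := by
      rw [aeval_def, Algebra.algebraMap_self, eval₂_id]
      simp only [div_eq_mul_inv]
    rw [h3, h2, mul_zero]
  have hσden : den.eval₂ σ 0 ≠ 0 := by
    rw [← map_zero σ, Polynomial.eval₂_at_apply]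
    exact fun h => hden (σ.injective h)
  have hcont : ContinuousAt (fun s : L => fun i => (num i).eval₂ σ s / den.eval₂ σ s) 0 := by
    rw [continuousAt_pi]
    intro i
    exact (continuous_eval₂ σ _).continuousAt.div (continuous_eval₂ σ _).continuousAt hσden
  have hval : (fun i => (num i).eval₂ σ (0 : L) / den.eval₂ σ 0) = fun i => σ (y i) := by
    funext i
    rw [← map_zero σ, Polynomial.eval₂_at_apply, Polynomial.eval₂_at_apply, hnum0, ← map_div₀,
      mul_div_cancel_left₀ _ hden]
  have hW1 : {s : L | (fun i => (num i).eval₂ σ s / den.eval₂ σ s) ∈ U} ∈ nhds (0 : L) := by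
    apply hcont
    show U ∈ nhds (fun i => (num i).eval₂ σ (0 : L) / den.eval₂ σ 0)
    rw [hval]
    exact hU.mem_nhds hyU
  have hW2 : {s : L | den.eval₂ σ s ≠ 0} ∈ nhds (0 : L) :=
    (continuous_eval₂ σ den).continuousAt.eventually_ne hσden
  have hG0 : G = 0 := by
    apply Polynomial.eq_zero_of_infinite_isRoot
    refine (infinite_preimage σ hσ 0 (Filter.inter_mem hW1 hW2)).mono ?_
    rintro t ⟨ht1, ht2⟩
    have ht3 : den.eval t ≠ 0 := by
      intro h
      apply ht2
      rw [Polynomial.eval₂_at_apply, h, map_zero]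
    refine hfrac t ht3 ?_
    have h4 : (fun i => σ ((num i).eval t / den.eval t)) =
        fun i => (num i).eval₂ σ (σ t) / den.eval₂ σ (σ t) := by
      funext i
      rw [Polynomial.eval₂_at_apply, Polynomial.eval₂_at_apply, map_div₀]
    rw [h4]
    exact ht1
  -- the dual number point
  let φ : Polynomial K →ₐ[K] DualNumber K :=
    Polynomial.aeval (TrivSqZeroExt.inr (1 : K) : DualNumber K)
  have hφ : ∀ q : Polynomial K, φ q = TrivSqZeroExt.inl (q.eval 0) +
      TrivSqZeroExt.inr (q.derivative.eval 0) := by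
    intro q
    obtain ⟨h1, h2⟩ := aeval_eps q
    refine TrivSqZeroExt.ext ?_ ?_
    · rw [TrivSqZeroExt.fst_add, TrivSqZeroExt.fst_inl, TrivSqZeroExt.fst_inr, add_zero, ← h1]
    · rw [TrivSqZeroExt.snd_add, TrivSqZeroExt.snd_inl, TrivSqZeroExt.snd_inr, zero_add, ← h2]
  let u : DualNumber K := TrivSqZeroExt.inl (den.eval 0)⁻¹ +
    TrivSqZeroExt.inr (-(den.derivative.eval 0) / (den.eval 0) ^ 2)
  have hu : φ den * u = 1 := by
    rw [hφ]
    refine TrivSqZeroExt.ext ?_ ?_
    · simp [u, mul_inv_cancel₀ hden]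
    · rw [DualNumber.snd_mul]
      simp only [u, TrivSqZeroExt.fst_add, TrivSqZeroExt.fst_inl, TrivSqZeroExt.fst_inr,
        TrivSqZeroExt.snd_add, TrivSqZeroExt.snd_inl, TrivSqZeroExt.snd_inr, add_zero, zero_add,
        TrivSqZeroExt.snd_one]
      field_simp
      ring
  have hQ1 : ∀ l, (φ (num l) * u).fst = y l := by
    intro l
    rw [hφ, TrivSqZeroExt.fst_mul]
    simp only [u, TrivSqZeroExt.fst_add, TrivSqZeroExt.fst_inl, TrivSqZeroExt.fst_inr, add_zero]
    rw [hnum0]
    field_simp
  have hQ2 : ∀ l, (φ (num l) * u).snd = c / den.eval 0 * valueAt y V l := by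
    intro l
    rw [hφ, DualNumber.snd_mul]
    simp only [u, TrivSqZeroExt.fst_add, TrivSqZeroExt.fst_inl, TrivSqZeroExt.fst_inr,
        TrivSqZeroExt.snd_add, TrivSqZeroExt.snd_inl, TrivSqZeroExt.snd_inr, add_zero, zero_add]
    rw [hnum0, hnum1]
    field_simp
    ring
  have h5 := hG (DualNumber K) φ u hu
  rw [hG0, map_zero] at h5
  have h6 : aeval (fun l => φ (num l) * u) g = 0 := by
    have h7 : u ^ k * (φ den ^ k * aeval (fun l => φ (num l) * u) g) = 0 := by
      rw [← h5, mul_zero]
    rw [← mul_assoc, ← mul_pow, mul_comm u, hu, one_pow, one_mul] at h7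
    exact h7
  have h8 := (taylor (fun l => φ (num l) * u) g).2
  rw [h6, TrivSqZeroExt.snd_zero] at h8
  simp only [hQ1, hQ2] at h8
  have h9 : c / den.eval 0 * ∑ l, eval y (pderiv l g * V (X l)) = 0 := by
    refine Eq.trans ?_ h8.symm
    rw [Finset.mul_sum]
    refine Finset.sum_congr rfl fun l _ => ?_
    rw [map_mul, valueAt_apply, aeval_def, Algebra.algebraMap_self, eval₂_id]
    ring
  exact (mul_eq_zero.1 h9).resolve_left (div_ne_zero hc hden)

end Pool.Agent.TH178.MZ
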